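import Pool.Agent.W711.CR.Stm

/-!
# CR-C: the groups `GG k` and `HH k` are not virtually isomorphic
-/

set_option autoImplicit false

namespace Pool.Agent.W435.CRC

open Pool.Agent.W711.CR

noncomputable section

/-! ### Pigeonhole -/

theorem exists_coset {G : Type} [Group G] (H1 : Subgroup G) (h : H1.index ≠ 0) (f : ℕ → G) :
    ∃ m0 : ℕ, {m : ℕ | (f m0)⁻¹ * f m ∈ H1}.Infinite := by
  have : Finite (G ⧸ H1) := Nat.finite_of_card_ne_zero h
  obtain ⟨y, hy⟩ := Finite.exists_infinite_fiber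
    (fun m : ℕ => (QuotientGroup.mk (f m) : G ⧸ H1))
  have hinf : ((fun m : ℕ => (QuotientGroup.mk (f m) : G ⧸ H1)) ⁻¹' {y}).Infinite :=
    Set.infinite_coe_iff.mp hy
  obtain ⟨m0, hm0⟩ := hinf.nonempty
  refine ⟨m0, hinf.mono ?_⟩
  intro m hm
  have h1 : (QuotientGroup.mk (f m0) : G ⧸ H1) = y := hm0
  have h2 : (QuotientGroup.mk (f m) : G ⧸ H1) = y := hm
  exact QuotientGroup.eq.mp (h1.trans h2.symm)

/-! ### Conjugation in a semidirect product -/

theorem conj_inl {Γ X : Type} [Group Γ] [MulAction Γ X] (S : StSub Γ X) (x : Sd S)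
    (a : Multiplicative S.W) :
    x * SemidirectProduct.inl a * x⁻¹ = SemidirectProduct.inl (rho S x.right a) := by
  have hx : x = SemidirectProduct.inl x.left * SemidirectProduct.inr x.right :=
    (SemidirectProduct.inl_left_mul_inr_right x).symm
  have h1 : (SemidirectProduct.inr x.right * SemidirectProduct.inl a *
      (SemidirectProduct.inr x.right)⁻¹ : Sd S) = SemidirectProduct.inl (rho S x.right a) := by
    rw [SemidirectProduct.inl_aut, map_inv]
  calc x * SemidirectProduct.inl a * x⁻¹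
      = SemidirectProduct.inl x.left * SemidirectProduct.inr x.right * SemidirectProduct.inl a *
          (SemidirectProduct.inl x.left * SemidirectProduct.inr x.right)⁻¹ := by rw [← hx]
    _ = SemidirectProduct.inl x.left * (SemidirectProduct.inr x.right * SemidirectProduct.inl a *
          (SemidirectProduct.inr x.right)⁻¹) * (SemidirectProduct.inl x.left)⁻¹ := by group
    _ = SemidirectProduct.inl x.left * SemidirectProduct.inl (rho S x.right a) *
          (SemidirectProduct.inl x.left)⁻¹ := by rw [h1]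
    _ = SemidirectProduct.inl (x.left * rho S x.right a * x.left⁻¹) := by
        rw [map_mul, map_mul, map_inv]
    _ = SemidirectProduct.inl (rho S x.right a) := by
        rw [mul_comm x.left, mul_inv_cancel_right]

/-! ### Facts on `E3 k` -/

theorem two_E {k : Type} [Field k] [CharP k 2] (v : E3 k) : v + v = 0 := by
  funext i
  show v i + v i = 0
  rw [← two_mul]
  have h2 : (2 : Polynomial k) = 0 := by
    rw [← map_ofNat Polynomial.C 2, show (OfNat.ofNat 2 : k) = 0 from CharTwo.two_eq_zero,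
      Polynomial.C_0]
  rw [h2, zero_mul]

theorem X_pow_ne {k : Type} [Field k] {m m' : ℕ} (h : m ≠ m') :
    (Polynomial.X ^ (m + 1) : Polynomial k) - Polynomial.X ^ (m' + 1) ≠ 0 := by
  intro h0
  have h1 : (Polynomial.X ^ (m + 1) : Polynomial k) = Polynomial.X ^ (m' + 1) := sub_eq_zero.mp h0
  have h2 := congrArg Polynomial.natDegree h1
  simp at h2
  exact h h2

theorem smul_zero_E {k : Type} [Field k] {p : Polynomial k} (hp : p ≠ 0) {v : E3 k}
    (h : p • v = 0) : v = 0 := by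
  funext i
  have h1 : p * v i = 0 := congrFun h i
  exact (mul_eq_zero.mp h1).resolve_left hp

theorem single_smul {k : Type} [Field k] (j : Fin 3) (p : Polynomial k) :
    (Pi.single j p : E3 k) = p • (Pi.single j 1 : E3 k) := by
  funext i
  by_cases h : i = j
  · subst h; simp
  · simp [h]

/-- `g - 1` -/
def lin {k : Type} [Field k] (g : Gam k) : E3 k →ₗ[Polynomial k] E3 k :=
  (g.1 : E3 k ≃ₗ[Polynomial k] E3 k).toLinearMap - LinearMap.id

theorem lin_apply {k : Type} [Field k] (g : Gam k) (v : E3 k) : lin g v = g • v - v := rfl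

theorem eq_one_of_lin {k : Type} [Field k] (g : Gam k) (h : lin g = 0) : g = 1 := by
  apply Subtype.ext
  apply LinearEquiv.ext
  intro v
  have h1 : lin g v = 0 := by rw [h]; rfl
  rw [lin_apply, sub_eq_zero] at h1
  exact h1

theorem tv_tv {k : Type} [Field k] (i j : Fin 3) (h : i ≠ j) (a b : Polynomial k) (v : E3 k) :
    tv i j h a (tv i j h b v) = tv i j h (a + b) v := by
  rw [tv_apply, tv_apply, tv_apply]
  have h1 : (v + Pi.single i (b * v j) : E3 k) j = v j := by simp [Ne.symm h]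
  rw [h1]
  funext l
  by_cases hl : l = i
  · subst hl; simp; ring
  · simp [hl]

theorem tv_symm_apply {k : Type} [Field k] (i j : Fin 3) (h : i ≠ j) (a : Polynomial k)
    (v : E3 k) : (tv i j h a).symm v = tv i j h (-a) v := by
  have : (tv i j h a).symm v = v - Pi.single i (a * v j) := rfl
  rw [this, tv_apply]
  funext l
  by_cases hl : l = i
  · subst hl; simp; ring
  · simp [hl]

theorem closure_Orb_stable {k : Type} [Field k] (g : Gam k) (v : E3 k)
    (hv : v ∈ AddSubgroup.closure (Orb k)) : g • v ∈ AddSubgroup.closure (Orb k) := by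
  induction hv using AddSubgroup.closure_induction with
  | mem v hv => exact AddSubgroup.subset_closure (Orb_stable k g v hv)
  | zero => rw [smul_zero]; exact AddSubgroup.zero_mem _
  | add a b _ _ h1 h2 => rw [smul_add]; exact AddSubgroup.add_mem _ h1 h2
  | neg a _ h1 => rw [smul_neg]; exact AddSubgroup.neg_mem _ h1

/-! ### The elements `D v` -/

/-- `v ↦ 2 • ev v` -/
def dd (hs : P_sep) (k : Type) [Field k] [CharP k 2] :
    AddSubgroup.closure (Orb k) →+ (ASt (Γ := Gam k) (Orb k) (Orb_stable k)).W where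
  toFun v := ⟨2 • ev v.1, (hs (E3 k) two_E).2.2.2 (Orb k) v.1 v.2⟩
  map_zero' := by
    apply Subtype.ext
    funext f
    show 2 • f.1 0 = 0
    rw [f.2.1, smul_zero]
  map_add' v w := by
    apply Subtype.ext
    exact (hs (E3 k) two_E).1 v.1 w.1

/-- the element of `HH k` -/
def D (hs : P_sep) (k : Type) [Field k] [CharP k 2] (v : AddSubgroup.closure (Orb k)) : HH k :=
  SemidirectProduct.inl (Multiplicative.ofAdd (dd hs k v))

theorem D_sub (hs : P_sep) {k : Type} [Field k] [CharP k 2]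
    (v w : AddSubgroup.closure (Orb k)) : D hs k (v - w) = D hs k v * (D hs k w)⁻¹ := by
  unfold D
  rw [map_sub, ofAdd_sub, map_div, div_eq_mul_inv]

theorem D_sub' (hs : P_sep) {k : Type} [Field k] [CharP k 2]
    (v w : AddSubgroup.closure (Orb k)) : D hs k (v - w) = (D hs k w)⁻¹ * D hs k v := by
  unfold D
  rw [map_sub, ofAdd_sub, ← map_inv, ← map_mul, div_eq_mul_inv, mul_comm]

theorem D_inj (hs : P_sep) {k : Type} [Field k] [CharP k 2]
    {v w : AddSubgroup.closure (Orb k)} (h : D hs k v = D hs k w) : v = w := by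
  have h1 : Multiplicative.ofAdd (dd hs k v) = Multiplicative.ofAdd (dd hs k w) :=
    SemidirectProduct.inl_injective h
  have h2 : dd hs k v = dd hs k w := Multiplicative.ofAdd.injective h1
  have h3 : dd hs k (v - w) = 0 := by rw [map_sub, h2, sub_self]
  have h4 : (2 • ev (v - w).1 : Fn (Pol (E3 k))) = 0 := congrArg Subtype.val h3
  have h5 := (hs (E3 k) two_E).2.1 _ h4
  have h6 : v.1 - w.1 = 0 := h5
  exact Subtype.ext (sub_eq_zero.mp h6)

theorem D_conj (hs : P_sep) {k : Type} [Field k] [CharP k 2] (x : HH k)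
    (v : AddSubgroup.closure (Orb k)) :
    x * D hs k v * x⁻¹ = D hs k ⟨x.right • v.1, closure_Orb_stable _ _ v.2⟩ := by
  unfold D
  rw [conj_inl]
  congr 1

/-- `x (D v) x⁻¹ (D v)⁻¹ = D ((x - 1) v)` -/
theorem D_comm (hs : P_sep) {k : Type} [Field k] [CharP k 2] (x : HH k)
    (v : AddSubgroup.closure (Orb k)) :
    x * D hs k v * x⁻¹ * (D hs k v)⁻¹ =
      D hs k ⟨lin x.right v.1, AddSubgroup.sub_mem _ (closure_Orb_stable _ _ v.2) v.2⟩ := by
  rw [D_conj, ← D_sub]
  rfl

/-- Part (c). -/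
theorem partC (hs : P_sep) (hm : P_mat) {k : Type} [Field k] [CharP k 2]
    (K H1 N : Subgroup (HH k)) (hKf : Finite K) (hH : H1.index ≠ 0)
    (hconj : ∀ x ∈ N, ∀ y ∈ H1, y * x * y⁻¹ ∈ N)
    (hcomm : ∀ x ∈ N, ∀ y ∈ N, x * y * x⁻¹ * y⁻¹ ∈ K) (x x' : HH k) (hx : x ∈ N) (hx' : x' ∈ N)
    (v : E3 k) : lin x'.right (lin x.right v) = 0 := by
  have key : (lin x'.right).comp (lin x.right) = 0 := by
    refine (Pi.basisFun (Polynomial k) (Fin 3)).ext fun j => ?_
    rw [Pi.basisFun_apply, LinearMap.zero_apply, LinearMap.comp_apply]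
    -- the vectors
    let vm : ℕ → AddSubgroup.closure (Orb k) := fun m =>
      ⟨Pi.single j (Polynomial.X ^ (m + 1)), (hm k).2.1 j (m + 1) (by omega)⟩
    obtain ⟨m0, hS⟩ := exists_coset H1 hH (fun m => D hs k (vm m))
    have hmaps : Set.MapsTo (fun m => D hs k ⟨lin x'.right (lin x.right (vm m - vm m0).1),
        AddSubgroup.sub_mem _ (closure_Orb_stable _ _ (AddSubgroup.sub_mem _
          (closure_Orb_stable _ _ (vm m - vm m0).2) (vm m - vm m0).2)) (AddSubgroup.sub_mem _
          (closure_Orb_stable _ _ (vm m - vm m0).2) (vm m - vm m0).2)⟩)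
        {m : ℕ | (D hs k (vm m0))⁻¹ * D hs k (vm m) ∈ H1} (K : Set (HH k)) := by
      intro m hmm
      have h1 : D hs k (vm m - vm m0) ∈ H1 := by rw [D_sub']; exact hmm
      have h2 : x * D hs k (vm m - vm m0) * x⁻¹ * (D hs k (vm m - vm m0))⁻¹ ∈ N := by
        have h3 := hconj x⁻¹ (N.inv_mem hx) _ h1
        have h4 := N.mul_mem hx h3
        have h5 : x * D hs k (vm m - vm m0) * x⁻¹ * (D hs k (vm m - vm m0))⁻¹ =
          x * (D hs k (vm m - vm m0) * x⁻¹ * (D hs k (vm m - vm m0))⁻¹) := by group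
        rw [h5]; exact h4
      rw [D_comm] at h2
      have h6 := hcomm x' hx' _ h2
      rw [D_comm] at h6
      exact h6
    obtain ⟨m, hmS, m', hmS', hne, heq⟩ :=
      hS.exists_ne_map_eq_of_mapsTo hmaps (Set.toFinite _)
    have h7 := congrArg Subtype.val (D_inj hs heq)
    have h8 : lin x'.right (lin x.right ((vm m - vm m0).1 - (vm m' - vm m0).1)) = 0 := by
      rw [map_sub, map_sub]
      exact sub_eq_zero.mpr h7
    have h9 : (vm m - vm m0).1 - (vm m' - vm m0).1 =
        (Polynomial.X ^ (m + 1) - Polynomial.X ^ (m' + 1) : Polynomial k) •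
          (Pi.single j 1 : E3 k) := by
      have e1 : (vm m - vm m0).1 = (Pi.single j (Polynomial.X ^ (m + 1)) : E3 k) -
        Pi.single j (Polynomial.X ^ (m0 + 1)) := rfl
      have e2 : (vm m' - vm m0).1 = (Pi.single j (Polynomial.X ^ (m' + 1)) : E3 k) -
        Pi.single j (Polynomial.X ^ (m0 + 1)) := rfl
      rw [e1, e2, single_smul j (Polynomial.X ^ (m + 1)), single_smul j (Polynomial.X ^ (m' + 1)),
        sub_smul]
      abel
    rw [h9, map_smul, map_smul] at h8
    exact smul_zero_E (X_pow_ne hne) h8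
  exact LinearMap.congr_fun key v

/-- The core: `N` lies in the kernel of `HH k → Γ`. -/
theorem core (hs : P_sep) (hm : P_mat) {k : Type} [Field k] [CharP k 2]
    (K H1 N : Subgroup (HH k)) (hKf : Finite K) (hH : H1.index ≠ 0)
    (hconj : ∀ x ∈ N, ∀ y ∈ H1, y * x * y⁻¹ ∈ N)
    (hcomm : ∀ x ∈ N, ∀ y ∈ N, x * y * x⁻¹ * y⁻¹ ∈ K) (x : HH k) (hx : x ∈ N) :
    x.right = 1 := by
  apply eq_one_of_lin
  refine (hm k).2.2 (lin x.right) (fun v => partC hs hm K H1 N hKf hH hconj hcomm x x hx hx v) ?_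
  intro i j h
  let t : ℕ → Gam k := fun m => ⟨tv i j h (Polynomial.X ^ (m + 1)), (hm k).1 i j h (m + 1) (by omega)⟩
  obtain ⟨m0, hS⟩ := exists_coset H1 hH (fun m => (SemidirectProduct.inr (t m) : HH k))
  obtain ⟨m, hmS, hne⟩ := hS.exists_notMem_finset {m0}
  have hne' : m0 ≠ m := fun h => hne (by rw [h]; exact Finset.mem_singleton_self _)
  refine ⟨Polynomial.X ^ (m0 + 1) - Polynomial.X ^ (m + 1), X_pow_ne hne', fun v => ?_⟩
  have h1 : (SemidirectProduct.inr (t m0) : HH k)⁻¹ * SemidirectProduct.inr (t m) ∈ H1 := hmS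
  set y : HH k := (SemidirectProduct.inr (t m0) : HH k)⁻¹ * SemidirectProduct.inr (t m) with hy
  have hyr : y.right = (t m0)⁻¹ * t m := by
    rw [hy, SemidirectProduct.mul_right, SemidirectProduct.inv_right,
      SemidirectProduct.right_inr, SemidirectProduct.right_inr]
  have h2 := hconj x hx y h1
  have h3 := partC hs hm K H1 N hKf hH hconj hcomm x (y * x * y⁻¹) hx h2 v
  have h4 : (y * x * y⁻¹).right = y.right * x.right * y.right⁻¹ := by
    rw [SemidirectProduct.mul_right, SemidirectProduct.mul_right, SemidirectProduct.inv_right]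
  rw [h4, lin_apply, sub_eq_zero, mul_smul, mul_smul] at h3
  have h5 : x.right • (y.right⁻¹ • lin x.right v) = y.right⁻¹ • lin x.right v := by
    have := congrArg (fun w => y.right⁻¹ • w) h3
    simpa using this
  have h6 : (y.right⁻¹ • lin x.right v : E3 k) =
      tv i j h (Polynomial.X ^ (m0 + 1) - Polynomial.X ^ (m + 1)) (lin x.right v) := by
    rw [hyr, mul_inv_rev, inv_inv, mul_smul]
    have e1 : ∀ w : E3 k, (t m)⁻¹ • w = tv i j h (-(Polynomial.X ^ (m + 1))) w :=
      fun w => tv_symm_apply i j h _ w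
    have e2 : ∀ w : E3 k, t m0 • w = tv i j h (Polynomial.X ^ (m0 + 1)) w := fun w => rfl
    rw [e2, e1, tv_tv, neg_add_eq_sub]
  rw [← h6, lin_apply, sub_eq_zero]
  exact h5

/-- Part (a). -/
theorem partA (hs : P_sep) (hm : P_mat) {k : Type} [Field k] [CharP k 2]
    (F G1 : Subgroup (GG k)) (hFf : Finite F) (hG : G1.index ≠ 0) :
    ∃ w : Multiplicative (WSt (Γ := Gam k) (Orb k) (Orb_stable k)).W,
      (SemidirectProduct.inl w : GG k) ∈ G1 ∧
      (SemidirectProduct.inl w * SemidirectProduct.inl w : GG k) ∉ F := by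
  have h12 : (1 : Fin 3) ≠ 2 := by decide
  let um : ℕ → E3 k := fun m => tv 1 2 h12 (Polynomial.X ^ (m + 1)) (e3 k)
  have hum : ∀ m, um m ∈ Orb k := fun m =>
    ⟨⟨tv 1 2 h12 (Polynomial.X ^ (m + 1)), (hm k).1 1 2 h12 (m + 1) (by omega)⟩, rfl⟩
  have hum1 : ∀ m, (um m) 1 = Polynomial.X ^ (m + 1) := by
    intro m
    show (tv 1 2 h12 (Polynomial.X ^ (m + 1)) (e3 k)) 1 = _
    rw [tv_apply]
    simp [e3]
  let wm : ℕ → Multiplicative (WSt (Γ := Gam k) (Orb k) (Orb_stable k)).W := fun m =>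
    Multiplicative.ofAdd ⟨ev (um m), AddSubgroup.subset_closure ⟨um m, hum m, rfl⟩⟩
  obtain ⟨m0, hS⟩ := exists_coset G1 hG (fun m => (SemidirectProduct.inl (wm m) : GG k))
  by_contra hcon
  push Not at hcon
  have hmaps : Set.MapsTo (fun m => (SemidirectProduct.inl ((wm m0)⁻¹ * wm m) *
      SemidirectProduct.inl ((wm m0)⁻¹ * wm m) : GG k))
      {m : ℕ | (SemidirectProduct.inl (wm m0) : GG k)⁻¹ * SemidirectProduct.inl (wm m) ∈ G1}
      (F : Set (GG k)) := by
    intro m hmm
    apply hcon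
    rw [map_mul, map_inv]
    exact hmm
  obtain ⟨m, hmS, m', hmS', hne, heq⟩ :=
    hS.exists_ne_map_eq_of_mapsTo hmaps (Set.toFinite _)
  simp only [← map_mul] at heq
  have h1 := SemidirectProduct.inl_injective heq
  have h2 : wm m * wm m = wm m' * wm m' := by
    have e : ∀ a b : Multiplicative (WSt (Γ := Gam k) (Orb k) (Orb_stable k)).W,
        (a⁻¹ * b) * (a⁻¹ * b) = (a⁻¹ * a⁻¹) * (b * b) := fun a b => by
      rw [mul_mul_mul_comm]
    rw [e, e] at h1
    exact mul_left_cancel h1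
  have h3 : (ev (um m) + ev (um m) : Fn (Pol (E3 k))) = ev (um m') + ev (um m') :=
    congrArg (fun z => (Multiplicative.toAdd z).1) h2
  have h4 : (2 • ev (um m - um m') : Fn (Pol (E3 k))) = 0 := by
    have h5 := (hs (E3 k) two_E).1 (um m - um m') (um m')
    rw [sub_add_cancel, two_nsmul, two_nsmul (ev (um m')), h3] at h5
    have h6 : (2 • ev (um m - um m') : Fn (Pol (E3 k))) + (ev (um m') + ev (um m')) =
        0 + (ev (um m') + ev (um m')) := by rw [← h5, zero_add]
    exact add_right_cancel h6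
  have h7 := (hs (E3 k) two_E).2.1 _ h4
  have h8 : (um m) 1 - (um m') 1 = 0 := congrFun h7 1
  rw [hum1, hum1] at h8
  exact X_pow_ne hne h8

theorem crC : P_sep → P_mat → P_C := by
  intro hs hm k _ _ hV
  obtain ⟨F, K, hFn, hKn, hFf, hKf, G₀, H₀, hG₀, hH₀, ⟨θ⟩⟩ := hV
  -- preimages
  have hG1 : (G₀.comap (QuotientGroup.mk' F)).index ≠ 0 := by
    rw [Subgroup.index_comap_of_surjective _ (QuotientGroup.mk'_surjective F)]
    exact hG₀
  have hH1 : (H₀.comap (QuotientGroup.mk' K)).index ≠ 0 := by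
    rw [Subgroup.index_comap_of_surjective _ (QuotientGroup.mk'_surjective K)]
    exact hH₀
  obtain ⟨w, hw1, hw2⟩ := partA hs hm F _ hFf hG1
  -- the image of `W` in the quotient
  let R : Subgroup (GG k ⧸ F) := (SemidirectProduct.inl :
    Multiplicative (WSt (Γ := Gam k) (Orb k) (Orb_stable k)).W →* GG k).range.map
      (QuotientGroup.mk' F)
  have hRn : ∀ a ∈ R, ∀ b : GG k ⧸ F, b * a * b⁻¹ ∈ R := by
    rintro a ⟨z, ⟨u, rfl⟩, rfl⟩ b
    obtain ⟨b, rfl⟩ := QuotientGroup.mk'_surjective F b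
    refine ⟨_, ⟨rho _ b.right u, rfl⟩, ?_⟩
    rw [← conj_inl, map_mul, map_mul, map_inv]
  have hRc : ∀ a ∈ R, ∀ b ∈ R, a * b = b * a := by
    rintro _ ⟨z, ⟨u, rfl⟩, rfl⟩ _ ⟨z', ⟨u', rfl⟩, rfl⟩
    rw [← map_mul, ← map_mul, ← map_mul, ← map_mul, mul_comm]
  let N : Subgroup (HH k) := (((R.subgroupOf G₀).map θ.toMonoidHom).map H₀.subtype).comap
    (QuotientGroup.mk' K)
  have hNmem : ∀ y : HH k, y ∈ N ↔ ∃ g : G₀, (g : GG k ⧸ F) ∈ R ∧
      ((θ g : H₀) : HH k ⧸ K) = QuotientGroup.mk' K y := by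
    intro y
    constructor
    · rintro ⟨_, ⟨g, hg, rfl⟩, h⟩
      exact ⟨g, hg, h⟩
    · rintro ⟨g, hg, h⟩
      exact ⟨_, ⟨g, hg, rfl⟩, h⟩
  have hconj : ∀ x ∈ N, ∀ y ∈ H₀.comap (QuotientGroup.mk' K), y * x * y⁻¹ ∈ N := by
    intro x hx y hy
    rw [hNmem] at hx ⊢
    obtain ⟨g, hg, h⟩ := hx
    let y' : H₀ := ⟨QuotientGroup.mk' K y, hy⟩
    refine ⟨θ.symm y' * g * (θ.symm y')⁻¹, ?_, ?_⟩
    · exact hRn _ hg _
    · rw [map_mul, map_mul, map_inv, θ.apply_symm_apply]
      show (y' : HH k ⧸ K) * (θ g : HH k ⧸ K) * (y' : HH k ⧸ K)⁻¹ = _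
      rw [h, map_mul, map_mul, map_inv]
  have hcomm : ∀ x ∈ N, ∀ y ∈ N, x * y * x⁻¹ * y⁻¹ ∈ K := by
    intro x hx y hy
    rw [hNmem] at hx hy
    obtain ⟨g, hg, h⟩ := hx
    obtain ⟨g', hg', h'⟩ := hy
    have hc : g * g' = g' * g := Subtype.ext (hRc _ hg _ hg')
    have hc2 : θ g * θ g' = θ g' * θ g := by rw [← map_mul, hc, map_mul]
    have hc3 : ((θ g : H₀) : HH k ⧸ K) * ((θ g' : H₀) : HH k ⧸ K) =
        ((θ g' : H₀) : HH k ⧸ K) * ((θ g : H₀) : HH k ⧸ K) := congrArg Subtype.val hc2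
    rw [h, h'] at hc3
    rw [← QuotientGroup.ker_mk' K, MonoidHom.mem_ker, map_mul, map_mul, map_mul, map_inv, map_inv,
      hc3]
    group
  have hcore := core hs hm K (H₀.comap (QuotientGroup.mk' K)) N hKf hH1 hconj hcomm
  -- the element
  let g0 : G₀ := ⟨QuotientGroup.mk' F (SemidirectProduct.inl w), hw1⟩
  obtain ⟨y, hy⟩ := QuotientGroup.mk'_surjective K ((θ g0 : H₀) : HH k ⧸ K)
  have hyN : y ∈ N := (hNmem y).mpr ⟨g0, ⟨_, ⟨w, rfl⟩, rfl⟩, hy.symm⟩
  have hyr := hcore y hyN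
  have hyl : y = SemidirectProduct.inl y.left := by
    apply SemidirectProduct.ext
    · rfl
    · rw [hyr]; rfl
  have hy2 : y * y = 1 := by
    rw [hyl, ← map_mul]
    have : y.left * y.left = 1 := by
      apply Multiplicative.toAdd.injective
      apply Subtype.ext
      exact (hs (E3 k) two_E).2.2.1 (Orb k) _ (Multiplicative.toAdd y.left).2
    rw [this, map_one]
  have h1 : (θ g0 * θ g0 : H₀) = 1 := by
    apply Subtype.ext
    show ((θ g0 : H₀) : HH k ⧸ K) * ((θ g0 : H₀) : HH k ⧸ K) = 1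
    rw [← hy, ← map_mul, hy2, map_one]
  have h2 : g0 * g0 = 1 := by
    apply θ.injective
    rw [map_mul, h1, map_one]
  have h3 : QuotientGroup.mk' F (SemidirectProduct.inl w * SemidirectProduct.inl w) = 1 := by
    have := congrArg Subtype.val h2
    rw [map_mul]
    exact this
  apply hw2
  rw [← QuotientGroup.ker_mk' F, MonoidHom.mem_ker]
  exact h3

end

end Pool.Agent.W435.CRC
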